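import Pool.Agent.Results.MP_103a5c_nt.AlmostAllShortPairs
import Pool.Agent.V35.PCX

/-!
# Pair correlation of the zeros at the heights `α v_n`, for almost all `α`

Assume the Riemann hypothesis. Let `0 < η < 1`, let `v_n ≥ 1` be a sequence with exponent of convergence zero, for example
`v_n = b ^ n` with any `b > 1`, and `H_n` lengths with `v_n ^ η ≤ H_n ≤ v_n / 8`. For Lebesgue-almost all `α ∈ [1, 2]` the
pair correlation of the ordinates in the short intervals `(α v_n, α v_n + H_n]` is as predicted by Montgomery's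
conjecture, for ALL test functions `r` of bandwidth less than `(1 + η)/2` at once: the sum of
`r((γ - γ') log v_n / 2π)` over all the pairs of ordinates in `(α v_n, α v_n + H_n]` is
`(H_n log v_n / 2π) (r(0) + ∫ r(x) (1 - (sin πx / πx)²) dx + o(1))`. The exceptional null set of the `α` does not depend on
the test function. (Replacing `v_n` by `A v_n` one gets almost all `α ∈ [A, 2 A]`.)
-/

set_option autoImplicit false

open Filter Topology Complex MeasureTheory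

namespace Pool.Agent.Results.MP_103a5c_nt.AlmostEveryHeight

open AlmostAllShortPairs Pool.Agent.V35.WM Pool.Agent.V35.PCW Pool.Agent.V35.PCX

/-- the density of the pair sums -/
noncomputable def gr (t H T a : ℝ) : ℝ :=
  |H * Real.log T / (2 * Real.pi)|⁻¹ *
    dens (H370.Zf riemannZeta t (t + H)) (fun s => (H370.mult riemannZeta s : ℝ)) (Real.log T) a

lemma gr_nonneg (t H T a : ℝ) : 0 ≤ gr t H T a := by
  unfold gr
  have := dens_nonneg (H370.Zf riemannZeta t (t + H)) (fun s => (H370.mult riemannZeta s : ℝ)) (Real.log T) a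
  positivity

lemma gr_cont (t H T : ℝ) : Continuous (gr t H T) := by
  unfold gr
  exact continuous_const.mul (dens_cont _ _ _)

lemma int_P {t H T : ℝ} (ht : 1 ≤ t) (hH : 0 ≤ H) (hT : 1 ≤ T) (μ : ℝ) {ψ : ℝ → ℝ} (hψ : Continuous ψ) :
    P (H370.A2.RR ψ μ) t H T = ∫ a in (-μ)..μ, ψ a * gr t H T a := by
  have h1 : 0 ≤ H * Real.log T / (2 * Real.pi) := by
    have := Real.log_nonneg hT
    positivity
  have h2 : ∀ a, ψ a * gr t H T a = (H * Real.log T / (2 * Real.pi))⁻¹ *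
      (ψ a * dens (H370.Zf riemannZeta t (t + H)) (fun s => (H370.mult riemannZeta s : ℝ)) (Real.log T) a) := by
    intro a
    unfold gr
    rw [abs_of_nonneg h1]
    ring
  simp_rw [h2]
  rw [intervalIntegral.integral_const_mul, int_dens _ _ _ _ hψ, P_eq]
  congr 1
  unfold H370.A2.PP
  rw [H370.finsum_Zf H370.good_zeta ht]
  refine Finset.sum_congr rfl fun s _ => ?_
  rw [H370.finsum_Zf H370.good_zeta ht]

lemma M_eq {μ : ℝ} (hμ : μ ≤ 1) {ψ : ℝ → ℝ} (hψ : TC μ ψ) : M (H370.A2.RR ψ μ) = Mf ψ μ := by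
  obtain ⟨C, hC⟩ := hψ.2
  exact H370.A2.main_term hψ.1.continuous hψ.1.2 hμ hC

/-- one test function -/
lemma one_test (hRH : RiemannHypothesis) {η : ℝ} (hη0 : 0 < η) (hη1 : η < 1) {v : ℕ → ℝ} (hv : ∀ n, 1 ≤ v n)
    (hE : ExpLe v 0) {H : ℕ → ℝ} (hH : ∀ᶠ n in atTop, (v n) ^ η ≤ H n ∧ H n ≤ v n / 8) {μ : ℝ} (hμ0 : 0 < μ)
    (hμ : μ < (1 + η) / 2) {ψ : ℝ → ℝ} (hψ : TC μ ψ) :
    ∀ᵐ α : ℝ, α ∈ Set.Icc (1 : ℝ) 2 →
      Tendsto (fun n => ∫ a in (-μ)..μ, ψ a * gr (α * v n) (H n) (v n) a) atTop (𝓝 (Mf ψ μ)) := by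
  have htv : Tendsto v atTop atTop := tendsto_of_expLe (fun n => lt_of_lt_of_le one_pos (hv n)) le_rfl hE
  have hT : Test μ (H370.A2.RR ψ μ) := ⟨ψ, hψ.1.1, hψ.1.2, fun x => rfl, hψ.2⟩
  have key : ∀ k : ℕ, ∀ᵐ α : ℝ, α ∈ Set.Icc (1 : ℝ) 2 →
      ∀ᶠ n in atTop, |(∫ a in (-μ)..μ, ψ a * gr (α * v n) (H n) (v n) a) - Mf ψ μ| ≤ 1 / ((k : ℝ) + 1) := by
    intro k
    have hε : (0 : ℝ) < 1 / ((k : ℝ) + 1) := by positivity
    obtain ⟨δ, hδ, T₀, hmain⟩ := AlmostAllShortPairs.result hRH η μ (1 / ((k : ℝ) + 1)) hη0 hη1 hμ0 hμ hε _ hT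
    obtain ⟨N, hN⟩ := eventually_atTop.1 ((htv.eventually_ge_atTop T₀).and hH)
    set s : ℕ → Set ℝ := fun n => (fun x => v (n + N) * x) ⁻¹' {t : ℝ | v (n + N) ≤ t ∧ t ≤ 2 * v (n + N) ∧
      1 / ((k : ℝ) + 1) < |P (H370.A2.RR ψ μ) t (H (n + N)) (v (n + N)) - M (H370.A2.RR ψ μ)|} with hs
    have hvol : ∀ n, volume (s n) ≤ ENNReal.ofReal ((v (n + N)) ^ (-δ)) := by
      intro n
      obtain ⟨h1, h2, h3⟩ := hN (n + N) (by omega)
      have hvp : 0 < v (n + N) := lt_of_lt_of_le one_pos (hv _)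
      rw [hs]
      simp only
      rw [Real.volume_preimage_mul_left hvp.ne']
      refine (mul_le_mul_right (hmain (v (n + N)) h1 (H (n + N)) h2 h3) _).trans ?_
      rw [← ENNReal.ofReal_mul (abs_nonneg _)]
      apply ENNReal.ofReal_le_ofReal
      rw [abs_of_pos (inv_pos.2 hvp), ← Real.rpow_neg_one, ← Real.rpow_add hvp]
      apply le_of_eq
      congr 1
      ring
    have hsum : ∑' n, volume (s n) ≠ ⊤ := by
      have h1 : Summable fun n => (v (n + N)) ^ (-δ) := (summable_nat_add_iff N).2 (hE δ hδ)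
      exact ne_top_of_le_ne_top h1.tsum_ofReal_ne_top (ENNReal.tsum_le_tsum hvol)
    filter_upwards [ae_eventually_notMem hsum] with α hα hα12
    obtain ⟨N', hN'⟩ := eventually_atTop.1 hα
    filter_upwards [eventually_ge_atTop (N' + N)] with n hn
    obtain ⟨m, rfl⟩ : ∃ m, n = m + N := ⟨n - N, by omega⟩
    have h2 := hN' m (by omega)
    have hvp : 1 ≤ v (m + N) := hv _
    have hα1 : 1 ≤ α * v (m + N) := by nlinarith [hα12.1]
    have hH0 : 0 ≤ H (m + N) := le_trans (Real.rpow_nonneg (by linarith) _) (hN (m + N) (by omega)).2.1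
    by_contra hcon
    push Not at hcon
    apply h2
    show v (m + N) ≤ v (m + N) * α ∧ v (m + N) * α ≤ 2 * v (m + N) ∧ _
    refine ⟨by nlinarith [hα12.1], by nlinarith [hα12.2], ?_⟩
    have h5 : (fun x => v (m + N) * x) α = α * v (m + N) := mul_comm _ _
    rw [h5, int_P hα1 hH0 hvp μ hψ.1.continuous, M_eq (by linarith) hψ]
    exact hcon
  have key' := ae_all_iff.2 key
  filter_upwards [key'] with α hα hα12
  rw [Metric.tendsto_atTop]
  intro ε hε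
  obtain ⟨k, hk⟩ := exists_nat_one_div_lt hε
  obtain ⟨N, hN⟩ := eventually_atTop.1 (hα k hα12)
  refine ⟨N, fun n hn => ?_⟩
  rw [Real.dist_eq]
  exact lt_of_le_of_lt (hN n hn) hk

/-- **Theorem.** Assume the Riemann hypothesis. Let `0 < η < 1`, `v ≥ 1` a sequence with exponent of convergence zero and
`v_n ^ η ≤ H_n ≤ v_n / 8` for large `n`. For almost all `α ∈ [1, 2]`, for all `0 < μ < (1 + η) / 2` and all test functions
`r` of bandwidth `μ` (`Test μ r`) the normalised sum `P r (α v_n) H_n v_n` of `r((γ - γ') log v_n / 2π)` over the pairs of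
ordinates in `(α v_n, α v_n + H_n]` tends to `M r = r(0) + ∫ r(x) (1 - (sin πx / πx)²) dx`. The sequences `b ^ n`,
`b > 1`, have exponent of convergence zero. -/
theorem result (hRH : RiemannHypothesis) :
    (∀ η : ℝ, 0 < η → η < 1 → ∀ v : ℕ → ℝ, (∀ n, 1 ≤ v n) → ExpLe v 0 →
      ∀ H : ℕ → ℝ, (∀ᶠ n in atTop, (v n) ^ η ≤ H n ∧ H n ≤ v n / 8) →
      ∀ᵐ α : ℝ, α ∈ Set.Icc (1 : ℝ) 2 → ∀ (μ : ℝ) (r : ℝ → ℝ), 0 < μ → μ < (1 + η) / 2 → Test μ r →
        Tendsto (fun n => P r (α * v n) (H n) (v n)) atTop (𝓝 (M r))) ∧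
    (∀ b : ℝ, 1 < b → ExpLe (fun n : ℕ => b ^ n) 0) := by
  refine ⟨?_, fun b hb => expLe_geom b hb⟩
  intro η hη0 hη1 v hv hE H hH
  have hzero : ∀ μ : ℝ, TC μ (fun _ => 0) := fun μ => ⟨⟨⟨0, fun x y => by simp⟩, fun x _ => rfl⟩, 0, fun x => by
    simp [H370.A2.RR]⟩
  choose D hD hDd using fun μ : ℝ => exists_dense_class (μ := μ) (Q := TC μ) (fun ψ h => h.1) (hzero μ)
  have a1 : ∀ᵐ α : ℝ, ∀ μ : ℚ, ∀ j : ℕ, 0 < (μ : ℝ) → (μ : ℝ) < (1 + η) / 2 → α ∈ Set.Icc (1 : ℝ) 2 →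
      Tendsto (fun n => ∫ a in (-(μ : ℝ))..μ, D μ j a * gr (α * v n) (H n) (v n) a) atTop (𝓝 (Mf (D μ j) μ)) := by
    rw [ae_all_iff]
    intro μ
    rw [ae_all_iff]
    intro j
    by_cases h0 : 0 < (μ : ℝ) ∧ (μ : ℝ) < (1 + η) / 2
    · filter_upwards [one_test hRH hη0 hη1 hv hE hH h0.1 h0.2 (hD μ j)] with α hα _ _ hα12
      exact hα hα12
    · exact Eventually.of_forall fun α h1 h2 => absurd ⟨h1, h2⟩ h0
  have a2 : ∀ᵐ α : ℝ, ∀ μ₂ : ℚ, 0 < (μ₂ : ℝ) → (μ₂ : ℝ) < (1 + η) / 2 → α ∈ Set.Icc (1 : ℝ) 2 →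
      Tendsto (fun n => ∫ a in (-(μ₂ : ℝ))..μ₂, tri μ₂ a * gr (α * v n) (H n) (v n) a) atTop
        (𝓝 (Mf (tri μ₂) μ₂)) := by
    rw [ae_all_iff]
    intro μ₂
    by_cases h0 : 0 < (μ₂ : ℝ) ∧ (μ₂ : ℝ) < (1 + η) / 2
    · filter_upwards [one_test hRH hη0 hη1 hv hE hH h0.1 h0.2 (tc_tri h0.1)] with α hα _ _ hα12
      exact hα hα12
    · exact Eventually.of_forall fun α h1 h2 => absurd ⟨h1, h2⟩ h0
  filter_upwards [a1, a2] with α h1 h2 hα12 μ r hμ0 hμ hr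
  obtain ⟨ψ, hψ1, hψ2, hψ3, hψ4⟩ := hr
  have hrr : r = H370.A2.RR ψ μ := funext hψ3
  subst hrr
  have hψ : TC μ ψ := ⟨⟨hψ1, hψ2⟩, hψ4⟩
  have hlim := all_of_class (m₀ := (1 + η) / 2) (by linarith) D hD hDd
    (fun n a => gr (α * v n) (H n) (v n) a)
    (fun n a => gr_nonneg _ _ _ a)
    (fun n => gr_cont _ _ _)
    (fun μ' h3 h4 j => h1 μ' j h3 h4 hα12)
    (fun μ₂ h3 h4 => h2 μ₂ h3 h4 hα12)
    μ ψ hμ0 hμ hψ
  rw [M_eq (by linarith) hψ]
  refine hlim.congr' ?_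
  filter_upwards [hH] with n hn
  have hα1 : 1 ≤ α * v n := by nlinarith [hα12.1, hv n]
  have hH0 : 0 ≤ H n := le_trans (Real.rpow_nonneg (by linarith [hv n]) _) hn.1
  exact (int_P hα1 hH0 (hv n) μ hψ.1.continuous).symm

end Pool.Agent.Results.MP_103a5c_nt.AlmostEveryHeight
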