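import Pool.Agent.Y744.PCR.Glue

/-!
# One-sided bounds for windows of one or two lengths and the pair correlation conjecture

Assume the Riemann hypothesis. Let `D(T; α, β)` be the difference of `N(T; α, β) / ((T/2π) log T)` and
its conjectured value `∫_α^β (1 - (sin πu/πu)²) du + δ(α, β)`. For a length `ℓ` and a sign `s = ±1`
consider the one-sided bound: there are `C, c, A > 0` such that for all windows `[a, a + ℓ]`,
`a ≥ A`, and all `ε > 0`, `s D(T; a, a + ℓ) ≤ C e^{-ca} + ε` for all large `T`.

* If `ℓ₁/ℓ₂` is irrational then the bounds for `(ℓ₁, s₁)` and `(ℓ₂, s₂)` are together equivalent to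
  Montgomery's pair correlation conjecture, for every choice of the signs.
* The bound for a single `(ℓ, s)` already implies `limsup |D(T; α, β)| ≤ (π²/9) ℓ³` for ALL fixed
  windows `[α, β]`.

Both statements hold along every filter `F ≤ atTop`, for instance along sequences of heights. No
uniformity in `a` is required, and only windows far from the origin are used.

Idea of the proof (library `Pool.Agent.Y744.PCR`, not handed in before). Along an ultrafilter
the normalised counts converge. Montgomery's theorem says that the limit of `D` has, as a function of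
the window, a spectral gap `(-1, 1)`. A function with a spectral gap whose positive or negative part
decays exponentially is zero (its integral against functions with spectrum in the gap vanishes, and
a function with spectral gap cannot decay exponentially), so the limit discrepancy is periodic with
period `ℓ` up to null sets; two incommensurable periods and the spectral gap make it zero; a single
period and the spectral gap leave a small set of frequencies, which gives the bound `(π²/9) ℓ³`.
-/

set_option autoImplicit false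

open Filter Topology

namespace Pool.Agent.Results.MP_103a5c_nt.OneSidedWindows

/-- the nontrivial zeros of `ζ` with ordinate in `(0, T]` -/
def zeros (T : ℝ) : Set ℂ :=
  {s : ℂ | 0 < s.re ∧ s.re < 1 ∧ 0 < s.im ∧ s.im ≤ T ∧ riemannZeta s = 0}

/-- the multiplicity of `s` as a zero of `ζ` -/
noncomputable def mult (s : ℂ) : ℕ := analyticOrderNatAt riemannZeta s

/-- `N(T; α, β)`: the number of ordered pairs of zeros with ordinates in `(0, T]`, counted with
multiplicity, with `2πα / log T ≤ γ - γ' ≤ 2πβ / log T` -/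
noncomputable def N (T α β : ℝ) : ℕ :=
  ∑ᶠ s ∈ zeros T, ∑ᶠ s' ∈ {s' : ℂ | s' ∈ zeros T ∧
    2 * Real.pi * α / Real.log T ≤ s.im - s'.im ∧ s.im - s'.im ≤ 2 * Real.pi * β / Real.log T},
      mult s * mult s'

/-- the constant of the conjecture -/
noncomputable def P (α β : ℝ) : ℝ :=
  (∫ u in α..β, (1 - (Real.sin (Real.pi * u) / (Real.pi * u)) ^ 2)) +
    if α ≤ 0 ∧ 0 ≤ β then 1 else 0

/-- `(T / 2π) log T` -/
noncomputable def X (T : ℝ) : ℝ := T / (2 * Real.pi) * Real.log T

/-- the discrepancy -/
noncomputable def D (T α β : ℝ) : ℝ := N T α β / X T - P α β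

/-- Montgomery's pair correlation conjecture, along the filter `F` -/
def Montgomery (F : Filter ℝ) : Prop := ∀ α β : ℝ, α < β →
  Asymptotics.IsEquivalent F (fun T => (N T α β : ℝ)) (fun T => P α β * X T)

/-- the one-sided bound for the windows of length `ℓ`, with the sign `s` -/
def OneSided (F : Filter ℝ) (ℓ s : ℝ) : Prop := ∃ C c A : ℝ, 0 < C ∧ 0 < c ∧ 0 < A ∧
  ∀ a : ℝ, A ≤ a → ∀ ε : ℝ, 0 < ε → ∀ᶠ T in F, s * D T a (a + ℓ) ≤ C * Real.exp (-(c * a)) + ε

/-- **Theorem.** Assume RH and let `F ≤ atTop` be a filter (`F = atTop`, or a sequence of heights).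
(1) If `ℓ₁, ℓ₂ > 0` and `ℓ₁ / ℓ₂` is irrational then, for every choice of the signs, the pair
correlation conjecture along `F` is equivalent to the two one-sided bounds. (2) The one-sided bound
for one length `ℓ > 0` and one sign implies that for all `α < β` and `ε > 0` eventually
`|D(T; α, β)| ≤ (π² / 9) ℓ³ + ε`. -/
theorem result (hRH : RiemannHypothesis) (F : Filter ℝ) (hF : F ≤ atTop) :
    (∀ ℓ₁ ℓ₂ s₁ s₂ : ℝ, 0 < ℓ₁ → 0 < ℓ₂ → Irrational (ℓ₁ / ℓ₂) → (s₁ = 1 ∨ s₁ = -1) →
      (s₂ = 1 ∨ s₂ = -1) → (Montgomery F ↔ OneSided F ℓ₁ s₁ ∧ OneSided F ℓ₂ s₂)) ∧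
    (∀ ℓ s : ℝ, 0 < ℓ → (s = 1 ∨ s = -1) → OneSided F ℓ s → ∀ α β : ℝ, α < β →
      ∀ ε : ℝ, 0 < ε → ∀ᶠ T in F, |D T α β| ≤ Real.pi ^ 2 / 9 * ℓ ^ 3 + ε) :=
  Pool.Agent.Y744.G.main hRH F hF

end Pool.Agent.Results.MP_103a5c_nt.OneSidedWindows
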