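import Pool.Agent.Results.MP_103a5c_nt.AlmostAllShortPairs
import Pool.Agent.V11001.SI.PairsStep

/-!
# Pair correlation of the zeros in every short interval near the powers of almost every real number

Assume the Riemann hypothesis. Let `0 < η < 1`, `0 < μ < (1 + η) / 2`, `ε > 0`, `r` a test function of bandwidth `μ` and
`ν n / log n → ∞`, for example `ν n = n`. There are `κ > 0` and a set `E` of Hausdorff dimension less than one such that for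
each `x > 1` outside `E` and all large `n`, `T = x ^ (ν n)`, in EVERY interval `(a, b]` of length at least `T ^ η` in
`[T - T ^ (η + κ), T + T ^ (η + κ)]` the pair correlation of the ordinates against `r` is as predicted by Montgomery's
conjecture, up to `ε`.
-/

set_option autoImplicit false
set_option maxHeartbeats 4000000

open Filter Topology MeasureTheory Set

namespace Pool.Agent.Results.MP_103a5c_nt.PairsNearPowers

open Pool.Agent.V11001.KM Pool.Agent.V11001.SI Pool.Agent.V11001.SI.Pairs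
open AlmostAllShortPairs (P M Test)

/-- the bad sets have small measure -/
lemma bad_small {η₁ σ δ₀ δ' y ε : ℝ} {r : ℝ → ℝ} (h10 : 0 < η₁) (hσ : 0 < σ) (hσ1 : σ < 1) (hδ'0 : 0 < δ') (hδ' : δ' ≤ δ₀)
    (hδ'1 : δ' ≤ 1)
    {T₀ : ℝ} (hT₀ : ∀ T : ℝ, T₀ ≤ T → ∀ H : ℝ, T ^ η₁ ≤ H → H ≤ T / 8 →
      volume {t : ℝ | T ≤ t ∧ t ≤ 2 * T ∧ ε / 4 < |P r t H T - M r|} ≤ ENNReal.ofReal (T ^ (1 - δ₀)))
    {R : ℝ} (hR1 : 1 ≤ R) (hRT : T₀ ≤ R) (hR8 : 8 ≤ R ^ σ) :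
    volume {t : ℝ | ∃ k : ℕ, k ≤ ⌊R ^ σ⌋₊ ∧ ∃ j : ℕ, j ≤ ⌊R ^ (3 * σ)⌋₊ ∧
      t ∈ {t : ℝ | ((2 * R) ^ η₁ ≤ (j : ℝ) * R ^ y ∧ (j : ℝ) * R ^ y ≤ R / 8) ∧
        R + k * R ^ (1 - σ) ≤ t ∧ t ≤ 2 * (R + k * R ^ (1 - σ)) ∧
        ε / 4 < |P r t ((j : ℝ) * R ^ y) (R + k * R ^ (1 - σ)) - M r|}} ≤
      ENNReal.ofReal (R ^ (1 - (δ' - 5 * σ))) := by
  have hR0 : 0 < R := by linarith
  have hV : ∀ k : ℕ, k ≤ ⌊R ^ σ⌋₊ → ∀ j : ℕ, j ≤ ⌊R ^ (3 * σ)⌋₊ →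
      volume {t : ℝ | ((2 * R) ^ η₁ ≤ (j : ℝ) * R ^ y ∧ (j : ℝ) * R ^ y ≤ R / 8) ∧
        R + k * R ^ (1 - σ) ≤ t ∧ t ≤ 2 * (R + k * R ^ (1 - σ)) ∧
        ε / 4 < |P r t ((j : ℝ) * R ^ y) (R + k * R ^ (1 - σ)) - M r|} ≤ ENNReal.ofReal ((2 * R) ^ (1 - δ')) := by
    intro k hk j hj
    by_cases hc : (2 * R) ^ η₁ ≤ (j : ℝ) * R ^ y ∧ (j : ℝ) * R ^ y ≤ R / 8
    · have hk1 : (k : ℝ) * R ^ (1 - σ) ≤ R := by
        have h1 : (k : ℝ) ≤ R ^ σ := (Nat.le_floor_iff (by positivity)).1 hk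
        calc (k : ℝ) * R ^ (1 - σ) ≤ R ^ σ * R ^ (1 - σ) := mul_le_mul_of_nonneg_right h1 (by positivity)
          _ = R := by rw [← Real.rpow_add hR0, add_sub_cancel, Real.rpow_one]
      have hk0 : 0 ≤ (k : ℝ) * R ^ (1 - σ) := by positivity
      set D : ℝ := R + k * R ^ (1 - σ) with hD
      have hDR : R ≤ D := by linarith
      have hD2 : D ≤ 2 * R := by linarith
      have hD0 : 0 < D := by linarith
      have h1 := hT₀ D (hRT.trans hDR) ((j : ℝ) * R ^ y)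
        ((Real.rpow_le_rpow hD0.le hD2 h10.le).trans hc.1) (by linarith [hc.2])
      refine (measure_mono fun t ht => ht.2).trans (h1.trans (ENNReal.ofReal_le_ofReal ?_))
      calc D ^ (1 - δ₀) ≤ D ^ (1 - δ') := Real.rpow_le_rpow_of_exponent_le (by linarith) (by linarith)
        _ ≤ (2 * R) ^ (1 - δ') := Real.rpow_le_rpow hD0.le hD2 (by linarith)
    · have : {t : ℝ | ((2 * R) ^ η₁ ≤ (j : ℝ) * R ^ y ∧ (j : ℝ) * R ^ y ≤ R / 8) ∧
        R + k * R ^ (1 - σ) ≤ t ∧ t ≤ 2 * (R + k * R ^ (1 - σ)) ∧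
        ε / 4 < |P r t ((j : ℝ) * R ^ y) (R + k * R ^ (1 - σ)) - M r|} = ∅ := by
        ext t
        simp only [mem_ofPred_eq, mem_empty_iff_false, iff_false]
        exact fun h => hc h.1
      rw [this, measure_empty]
      exact bot_le
  refine (union_bound _ _ _ hV).trans (ENNReal.ofReal_le_ofReal ?_)
  have e1 : (⌊R ^ σ⌋₊ : ℝ) + 1 ≤ 2 * R ^ σ := by
    have := Nat.floor_le (show 0 ≤ R ^ σ by positivity)
    linarith
  have e2 : (⌊R ^ (3 * σ)⌋₊ : ℝ) + 1 ≤ 2 * R ^ (3 * σ) := by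
    have := Nat.floor_le (show 0 ≤ R ^ (3 * σ) by positivity)
    have h1 : 1 ≤ R ^ (3 * σ) := Real.one_le_rpow hR1 (by linarith)
    linarith
  have e4 : R ^ (1 - (δ' - 5 * σ)) = R ^ σ * (R ^ σ * R ^ (3 * σ) * R ^ (1 - δ')) := by
    rw [← Real.rpow_add hR0, ← Real.rpow_add hR0, ← Real.rpow_add hR0]
    congr 1
    ring
  have e5 : (2 * R) ^ (1 - δ') = 2 ^ (1 - δ') * R ^ (1 - δ') := Real.mul_rpow (by norm_num) hR0.le
  have e6 : 0 < R ^ σ * R ^ (3 * σ) * R ^ (1 - δ') := by positivity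
  have e7 : (2 : ℝ) ^ (1 - δ') ≤ 2 := by
    calc (2 : ℝ) ^ (1 - δ') ≤ 2 ^ (1 : ℝ) := Real.rpow_le_rpow_of_exponent_le (by norm_num) (by linarith)
      _ = 2 := Real.rpow_one 2
  have e8 : (2 * R) ^ (1 - δ') ≤ 2 * R ^ (1 - δ') := by
    rw [e5]
    exact mul_le_mul_of_nonneg_right e7 (by positivity)
  calc ((⌊R ^ σ⌋₊ : ℝ) + 1) * ((⌊R ^ (3 * σ)⌋₊ : ℝ) + 1) * (2 * R) ^ (1 - δ') ≤
      (2 * R ^ σ) * (2 * R ^ (3 * σ)) * (2 * R ^ (1 - δ')) :=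
        mul_le_mul (mul_le_mul e1 e2 (by positivity) (by positivity)) e8 (by positivity) (by positivity)
    _ = 8 * (R ^ σ * R ^ (3 * σ) * R ^ (1 - δ')) := by ring
    _ ≤ R ^ σ * (R ^ σ * R ^ (3 * σ) * R ^ (1 - δ')) := mul_le_mul_of_nonneg_right hR8 e6.le
    _ = R ^ (1 - (δ' - 5 * σ)) := e4.symm

/-- `Q a b` for every interval `(a, b]` of length at least `T ^ η` in `[T - W, T + W]` -/
def Every (η W T : ℝ) (Q : ℝ → ℝ → Prop) : Prop :=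
  ∀ a b : ℝ, T - W ≤ a → b ≤ T + W → T ^ η ≤ b - a → Q a b

/-- the inequalities for large `R` -/
lemma large {η η₁ σ B R₀ T₀ : ℝ} (hσ : 0 < σ) (h11 : η₁ < η) : ∃ R₁ : ℝ, ∀ R : ℝ, R₁ ≤ R →
    R₀ ≤ R ∧ T₀ ≤ R ∧ 10 ≤ R ∧ 64 ≤ R ^ σ ∧ 4 ≤ R ^ (η - η₁) ∧ 12 * Real.log R ^ 2 ≤ R ^ σ ∧ B * Real.log R ≤ R ^ σ := by
  have e1 : ∀ᶠ R : ℝ in atTop, 64 ≤ R ^ σ := (tendsto_rpow_atTop hσ).eventually_ge_atTop 64
  have e2 : ∀ᶠ R : ℝ in atTop, 4 ≤ R ^ (η - η₁) := (tendsto_rpow_atTop (by linarith)).eventually_ge_atTop 4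
  have e3 : ∀ᶠ R : ℝ in atTop, 12 * Real.log R ^ 2 ≤ R ^ σ := by
    have h1 := (isLittleO_log_rpow_atTop (show 0 < σ / 2 by positivity)).bound (show (0 : ℝ) < 1 / 4 by norm_num)
    filter_upwards [h1, eventually_ge_atTop 1] with R h2 h3
    rw [Real.norm_of_nonneg (Real.log_nonneg h3), Real.norm_of_nonneg (by positivity)] at h2
    have h4 : R ^ σ = (R ^ (σ / 2)) ^ 2 := by
      rw [← Real.rpow_natCast, ← Real.rpow_mul (by linarith)]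
      congr 1
      push_cast
      ring
    have h5 : Real.log R ^ 2 ≤ (1 / 4 * R ^ (σ / 2)) ^ 2 := pow_le_pow_left₀ (Real.log_nonneg h3) h2 2
    rw [h4]
    have h6 : 0 ≤ (R ^ (σ / 2)) ^ 2 := sq_nonneg _
    nlinarith
  have e4 : ∀ᶠ R : ℝ in atTop, B * Real.log R ≤ R ^ σ := by
    have h1 := (isLittleO_log_rpow_atTop hσ).bound (show (0 : ℝ) < 1 / (|B| + 1) by positivity)
    filter_upwards [h1, eventually_ge_atTop 1] with R h2 h3
    rw [Real.norm_of_nonneg (Real.log_nonneg h3), Real.norm_of_nonneg (by positivity), div_mul_eq_mul_div, one_mul,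
      le_div_iff₀ (by positivity)] at h2
    have h4 := Real.log_nonneg h3
    have h5 := le_abs_self B
    nlinarith
  obtain ⟨R₁, h⟩ := ((eventually_ge_atTop R₀).and ((eventually_ge_atTop T₀).and ((eventually_ge_atTop 10).and
    (e1.and (e2.and (e3.and e4)))))).exists_forall_of_atTop
  exact ⟨R₁, fun R hR => h R hR⟩

lemma core {η η₁ σ y : ℝ} (h10 : 0 < η₁) (hη : 0 < η) (hσ0 : 0 < σ) (hση : 16 * σ ≤ η)
    (hση1 : 16 * σ ≤ 1 - η) (h11 : η₁ < η) (hy : y = η - σ) {R T : ℝ} (hTpos : 0 < T) (g3 : 10 ≤ R)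
    (g4 : 64 ≤ R ^ σ) (g5 : 4 ≤ R ^ (η - η₁)) (hlow : R ≤ T - T ^ (η + σ)) (hhigh : T + T ^ (η + σ) ≤ 2 * R) (S : ℕ → ℕ → Set ℝ)
    (hvol : (volume.restrict {t : ℝ | ∃ k : ℕ, k ≤ ⌊R ^ σ⌋₊ ∧ ∃ j : ℕ, j ≤ ⌊R ^ (3 * σ)⌋₊ ∧ t ∈ S k j}
      (Icc (T - T ^ (η + σ)) (T + T ^ (η + σ)))).toReal ≤ 1 / 4 * T ^ y) {a b : ℝ} (ha : T - T ^ (η + σ) ≤ a)
    (hb : b ≤ T + T ^ (η + σ)) (hab : T ^ η ≤ b - a) :
    ∃ k j : ℕ, ∃ t : ℝ, t ∉ S k j ∧ T - T ^ (η + σ) - R ^ (1 - σ) ≤ R + k * R ^ (1 - σ) ∧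
      R + k * R ^ (1 - σ) ≤ T - T ^ (η + σ) ∧
      a ≤ t ∧ t ≤ a + R ^ y ∧ 0 < (j : ℝ) * R ^ y ∧ t + j * R ^ y ≤ b ∧ b - (t + j * R ^ y) ≤ 3 * R ^ y ∧
      (2 * R) ^ η₁ ≤ j * R ^ y ∧ (j : ℝ) * R ^ y ≤ R / 8 := by
  have hR0 : 0 < R := by linarith
  have hR1 : 1 ≤ R := by linarith
  have hy0 : 0 < y := by rw [hy]; linarith
  obtain ⟨h, hh⟩ : ∃ h : ℝ, h = R ^ y := ⟨_, rfl⟩
  obtain ⟨W, hW⟩ : ∃ W : ℝ, W = T ^ (η + σ) := ⟨_, rfl⟩
  obtain ⟨G, hG⟩ : ∃ G : ℝ, G = R ^ (1 - σ) := ⟨_, rfl⟩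
  rw [← hh, ← hW, ← hG]
  rw [← hW] at hlow hhigh hvol ha hb
  have hh0 : 0 < h := by rw [hh]; positivity
  have hh1 : 1 ≤ h := by rw [hh]; exact Real.one_le_rpow hR1 hy0.le
  have hG0 : 0 < G := by rw [hG]; positivity
  have hW0 : 0 < W := by rw [hW]; positivity
  have hRT : R ≤ T := by linarith
  have hT2R : T ≤ 2 * R := by linarith
  -- powers
  have p1 : R ^ η = R ^ σ * h := by
    rw [hh, hy, ← Real.rpow_add hR0]
    congr 1
    ring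
  have p2 : 64 * h ≤ R ^ η := by
    rw [p1]
    exact mul_le_mul_of_nonneg_right g4 hh0.le
  have p3 : R ^ η ≤ T ^ η := Real.rpow_le_rpow hR0.le hRT hη.le
  have p4 : 64 * h ≤ b - a := by linarith
  have two_pow : ∀ z : ℝ, 0 ≤ z → z ≤ 1 → (2 * R) ^ z ≤ 2 * R ^ z := by
    intro z hz0 hz1
    rw [Real.mul_rpow (by norm_num) hR0.le]
    apply mul_le_mul_of_nonneg_right _ (by positivity)
    calc (2 : ℝ) ^ z ≤ 2 ^ (1 : ℝ) := Real.rpow_le_rpow_of_exponent_le (by norm_num) hz1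
      _ = 2 := Real.rpow_one 2
  have p5 : W ≤ 2 * R ^ (η + σ) := by
    rw [hW]
    exact (Real.rpow_le_rpow hTpos.le hT2R (by linarith)).trans (two_pow _ (by linarith) (by linarith))
  have p6 : R ^ (η + σ) = R ^ (2 * σ) * h := by
    rw [hh, hy, ← Real.rpow_add hR0]
    congr 1
    ring
  have p7 : T ^ y ≤ 2 * h := by
    rw [hh]
    exact (Real.rpow_le_rpow hTpos.le hT2R hy0.le).trans (two_pow _ hy0.le (by rw [hy]; linarith))
  have p8 : R ^ (3 * σ) = R ^ σ * R ^ (2 * σ) := by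
    rw [← Real.rpow_add hR0]
    congr 1
    ring
  have p9 : R ^ (η + σ) ≤ G := by
    rw [hG]
    exact Real.rpow_le_rpow_of_exponent_le hR1 (by linarith)
  have p10 : R ^ σ * G = R := by rw [hG, ← Real.rpow_add hR0, add_sub_cancel, Real.rpow_one]
  have p11 : 64 * G ≤ R := by
    rw [← p10]
    exact mul_le_mul_of_nonneg_right g4 hG0.le
  have hba : b - a ≤ 2 * W := by linarith
  -- the scale
  set k : ℕ := ⌊(T - W - R) / G⌋₊ with hk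
  have hk1 : (k : ℝ) * G ≤ T - W - R := by
    have := Nat.floor_le (show 0 ≤ (T - W - R) / G from div_nonneg (by linarith) hG0.le)
    rwa [le_div_iff₀ hG0] at this
  have hk2 : T - W - R < (k + 1) * G := by
    have := Nat.lt_floor_add_one ((T - W - R) / G)
    rwa [div_lt_iff₀ hG0] at this
  have hk3 : k ≤ ⌊R ^ σ⌋₊ := by
    rw [hk]
    apply Nat.floor_le_floor
    rw [div_le_iff₀ hG0, p10]
    linarith
  -- the length
  set q : ℕ := ⌊(b - a) / h⌋₊ with hq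
  have hq1 : (q : ℝ) * h ≤ b - a := by
    have := Nat.floor_le (show 0 ≤ (b - a) / h from div_nonneg (by linarith) hh0.le)
    rwa [le_div_iff₀ hh0] at this
  have hq2 : b - a < (q + 1) * h := by
    have := Nat.lt_floor_add_one ((b - a) / h)
    rwa [div_lt_iff₀ hh0] at this
  have hq3 : 3 ≤ q := by
    rw [hq]
    apply Nat.le_floor
    rw [le_div_iff₀ hh0]
    push_cast
    linarith
  obtain ⟨j, hj⟩ : ∃ j : ℕ, q = j + 2 := ⟨q - 2, by omega⟩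
  have hjq : (q : ℝ) = j + 2 := by exact_mod_cast hj
  have hj1 : (1 : ℝ) ≤ j := by
    have : 1 ≤ j := by omega
    exact_mod_cast this
  rw [hjq] at hq1 hq2
  have hj2 : (j : ℝ) * h ≤ b - a - 2 * h := by linarith
  have hj3 : b - a - 3 * h < (j : ℝ) * h := by linarith
  have hj4 : j ≤ ⌊R ^ (3 * σ)⌋₊ := by
    apply Nat.le_floor
    have h1 : (j : ℝ) * h ≤ 4 * R ^ (2 * σ) * h := by
      calc (j : ℝ) * h ≤ 2 * W := by linarith
        _ ≤ 4 * R ^ (2 * σ) * h := by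
            rw [p6] at p5
            linarith
    have h2 : (j : ℝ) ≤ 4 * R ^ (2 * σ) := le_of_mul_le_mul_right h1 hh0
    refine h2.trans ?_
    rw [p8]
    exact mul_le_mul_of_nonneg_right (by linarith) (by positivity)
  -- a good point
  obtain ⟨t, ht1, ht2, ht3⟩ : ∃ t : ℝ, a ≤ t ∧ t ≤ a + h ∧ t ∉ {t : ℝ | ∃ k : ℕ, k ≤ ⌊R ^ σ⌋₊ ∧
      ∃ j : ℕ, j ≤ ⌊R ^ (3 * σ)⌋₊ ∧ t ∈ S k j} := by
    by_contra hcon
    push Not at hcon
    set Bd : Set ℝ := {t : ℝ | ∃ k : ℕ, k ≤ ⌊R ^ σ⌋₊ ∧ ∃ j : ℕ, j ≤ ⌊R ^ (3 * σ)⌋₊ ∧ t ∈ S k j} with hBd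
    have h1 : Icc a (a + h) ⊆ Bd := fun t ht => hcon t ht.1 ht.2
    have h2 : volume.restrict Bd (Icc a (a + h)) = volume (Icc a (a + h)) := Measure.restrict_eq_self _ h1
    have hfin : volume.restrict Bd (Icc (T - W) (T + W)) ≠ ⊤ := by
      refine ne_top_of_le_ne_top ?_ (Measure.restrict_apply_le Bd _)
      rw [Real.volume_Icc]
      exact ENNReal.ofReal_ne_top
    have h3 : volume.restrict Bd (Icc a (a + h)) ≤ volume.restrict Bd (Icc (T - W) (T + W)) :=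
      measure_mono (Icc_subset_Icc ha (by linarith))
    have h4 := ENNReal.toReal_mono hfin h3
    rw [h2, Real.volume_Icc, ENNReal.toReal_ofReal (by linarith)] at h4
    linarith
  refine ⟨k, j, t, fun hS => ht3 ⟨k, hk3, j, hj4, hS⟩, by linarith, by linarith, ht1, ht2, by positivity, by linarith,
    by linarith, ?_, ?_⟩
  · have e1 : (2 * R) ^ η₁ ≤ 2 * R ^ η₁ := two_pow _ h10.le (by linarith)
    have e2 : R ^ η = R ^ (η - η₁) * R ^ η₁ := by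
      rw [← Real.rpow_add hR0]
      congr 1
      ring
    have e3 : 4 * R ^ η₁ ≤ R ^ η := by
      rw [e2]
      exact mul_le_mul_of_nonneg_right g5 (by positivity)
    linarith
  · linarith

theorem one_amplitude (hRH : RiemannHypothesis) {η μ ε : ℝ} (hη0 : 0 < η) (hη1 : η < 1) (hμ0 : 0 < μ)
    (hμ : μ < (1 + η) / 2) (hε : 0 < ε) {r : ℝ → ℝ} (hr : Test μ r) :
    ∃ s κ : ℝ, s < 1 ∧ 0 < κ ∧ ∀ ν : ℕ → ℝ, Fast ν → ∀ β : ℝ, 0 < β →
      ∃ E : Set ℝ, dimH E ≤ ENNReal.ofReal s ∧ ∀ x : ℝ, 1 < x → x ∉ E → ∃ n₀ : ℕ, ∀ n : ℕ, n₀ ≤ n →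
        ∀ T : ℝ, T = β * x ^ ν n → Every η (T ^ (η + κ)) T (fun a b => |P r a (b - a) T - M r| ≤ ε) := by
  obtain ⟨η₁, h10, h11, h12⟩ : ∃ η₁ : ℝ, 0 < η₁ ∧ η₁ < η ∧ μ < (1 + η₁) / 2 := by
    refine ⟨(η + max 0 (2 * μ - 1)) / 2, ?_, ?_, ?_⟩
    · have := le_max_left 0 (2 * μ - 1)
      linarith
    · have : max 0 (2 * μ - 1) < η := max_lt hη0 (by linarith)
      linarith
    · have := le_max_right 0 (2 * μ - 1)
      linarith
  obtain ⟨δ₀, hδ₀, T₀, hT₀⟩ := AlmostAllShortPairs.result hRH η₁ μ (ε / 4) h10 (h11.trans hη1) hμ0 h12 (by linarith) r hr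
  obtain ⟨δ', hδ'0, hδ', hδ'1⟩ : ∃ δ' : ℝ, 0 < δ' ∧ δ' ≤ δ₀ ∧ δ' ≤ 1 :=
    ⟨min δ₀ 1, lt_min hδ₀ one_pos, min_le_left _ _, min_le_right _ _⟩
  obtain ⟨σ, hσ0, hσδ, hση, hση1⟩ : ∃ σ : ℝ, 0 < σ ∧ 16 * σ ≤ δ' ∧ 16 * σ ≤ η ∧ 16 * σ ≤ 1 - η := by
    refine ⟨min (min δ' η) (1 - η) / 16, ?_, ?_, ?_, ?_⟩
    · have : 0 < min (min δ' η) (1 - η) := lt_min (lt_min hδ'0 hη0) (by linarith)
      positivity
    · have := (min_le_left (min δ' η) (1 - η)).trans (min_le_left _ _)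
      linarith
    · have := (min_le_left (min δ' η) (1 - η)).trans (min_le_right _ _)
      linarith
    · have := min_le_right (min δ' η) (1 - η)
      linarith
  obtain ⟨y, hy⟩ : ∃ y : ℝ, y = η - σ := ⟨_, rfl⟩
  have hy0 : 0 < y := by rw [hy]; linarith
  obtain ⟨s, hs0, hs1, hwin⟩ := windows (δ := δ' - 5 * σ) (η := y) (θ := η + σ) hy0.le (by linarith) (by linarith)
    (by rw [hy]; linarith)
  obtain ⟨B, R₀, hB, hstep⟩ := step hμ0 hr hε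
  refine ⟨s, σ, hs1, hσ0, fun ν hν β hβ => ?_⟩
  obtain ⟨R₁, hR₁⟩ := large (η := η) (η₁ := η₁) (B := B) (R₀ := R₀) (T₀ := T₀) hσ0 h11
  obtain ⟨i₀, hi₀⟩ := ((tendsto_pow_atTop_atTop_of_one_lt (show (1 : ℝ) < 2 by norm_num)).eventually_ge_atTop
    R₁).exists_forall_of_atTop
  set Bad : ℕ → Set ℝ := fun i => {t : ℝ | ∃ k : ℕ, k ≤ ⌊((2 : ℝ) ^ i) ^ σ⌋₊ ∧ ∃ j : ℕ, j ≤ ⌊((2 : ℝ) ^ i) ^ (3 * σ)⌋₊ ∧
      t ∈ {t : ℝ | ((2 * (2 : ℝ) ^ i) ^ η₁ ≤ (j : ℝ) * ((2 : ℝ) ^ i) ^ y ∧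
        (j : ℝ) * ((2 : ℝ) ^ i) ^ y ≤ (2 : ℝ) ^ i / 8) ∧
        (2 : ℝ) ^ i + k * ((2 : ℝ) ^ i) ^ (1 - σ) ≤ t ∧ t ≤ 2 * ((2 : ℝ) ^ i + k * ((2 : ℝ) ^ i) ^ (1 - σ)) ∧
        ε / 4 < |P r t ((j : ℝ) * ((2 : ℝ) ^ i) ^ y) ((2 : ℝ) ^ i + k * ((2 : ℝ) ^ i) ^ (1 - σ)) - M r|}} with hBad
  obtain ⟨E, hE1, hE2⟩ := hwin Bad i₀ (fun i hi => by
    obtain ⟨g1, g2, g3, g4, g5, g6, g7⟩ := hR₁ _ (hi₀ i hi)
    exact (measure_mono inter_subset_left).trans (bad_small h10 hσ0 (by linarith) hδ'0 hδ' hδ'1 hT₀ (by linarith) g2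
      (by linarith))) (1 / 4) (by norm_num) ν hν β hβ
  refine ⟨E, hE1, fun x hx hxE => ?_⟩
  obtain ⟨n₀, hn₀⟩ := hE2 x hx hxE
  refine ⟨n₀, fun n hn T hT a b ha hb hab => ?_⟩
  obtain ⟨i, hi, hlow, hhigh, hvol⟩ := hn₀ n hn
  rw [← hT] at hlow hhigh hvol
  obtain ⟨g1, g2, g3, g4, g5, g6, g7⟩ := hR₁ _ (hi₀ i hi)
  have h2R : (2 : ℝ) ^ (i + 1) = 2 * 2 ^ i := by rw [pow_succ]; ring
  rw [h2R] at hhigh
  simp only [hBad] at hvol
  obtain ⟨R, hR⟩ : ∃ R : ℝ, R = (2 : ℝ) ^ i := ⟨_, rfl⟩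
  have hstep' := hstep i
  rw [h2R] at hstep'
  rw [← hR] at hlow hhigh hvol g1 g2 g3 g4 g5 g6 g7 hstep'
  clear hBad hE2 hwin hn₀
  clear_value Bad
  have hR0 : 0 < R := by linarith
  have hTpos : 0 < T := by
    rw [hT]
    exact mul_pos hβ (Real.rpow_pos_of_pos (by linarith) _)
  obtain ⟨k, j, t, k1, k2, k3, k4, k5, k6, k7, k8, k9, k10⟩ := core h10 hη0 hσ0 hση hση1 h11 hy hTpos g3 g4 g5 hlow
    hhigh _ hvol ha hb hab
  have hW0 : 0 < T ^ (η + σ) := Real.rpow_pos_of_pos hTpos _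
  have hG0 : 0 < R ^ (1 - σ) := by positivity
  have hkG : 0 ≤ (k : ℝ) * R ^ (1 - σ) := by positivity
  have hRT : R ≤ T := by linarith
  have hT2R : T ≤ 2 * R := by linarith
  set D : ℝ := R + k * R ^ (1 - σ) with hD
  have hDR : R ≤ D := by linarith
  have hD0 : 0 < D := by linarith
  have hDT : D ≤ T := by linarith
  have hgood : |P r t ((t + j * R ^ y) - t) D - M r| ≤ ε / 4 := by
    rw [add_sub_cancel_left]
    by_contra hcon
    rw [not_le] at hcon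
    exact k1 ⟨⟨k9, k10⟩, by linarith, by linarith, hcon⟩
  have hlogd : |Real.log T - Real.log D| ≤ 1 / Real.log T ^ 2 := by
    have e1 : T ^ (η + σ) ≤ 2 * R ^ (1 - σ) := by
      calc T ^ (η + σ) ≤ (2 * R) ^ (η + σ) := Real.rpow_le_rpow hTpos.le hT2R (by linarith)
        _ = 2 ^ (η + σ) * R ^ (η + σ) := Real.mul_rpow (by norm_num) hR0.le
        _ ≤ 2 * R ^ (1 - σ) := by
            apply mul_le_mul _ _ (by positivity) (by norm_num)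
            · calc (2 : ℝ) ^ (η + σ) ≤ 2 ^ (1 : ℝ) := Real.rpow_le_rpow_of_exponent_le (by norm_num) (by linarith)
                _ = 2 := Real.rpow_one 2
            · exact Real.rpow_le_rpow_of_exponent_le (by linarith) (by linarith)
    have e2 : T - D ≤ 3 * R ^ (1 - σ) := by linarith
    have e3 : Real.log T - Real.log D ≤ 3 * R ^ (1 - σ) / R := by
      rw [← Real.log_div hTpos.ne' hD0.ne']
      have h1 : Real.log (T / D) ≤ T / D - 1 := Real.log_le_sub_one_of_pos (by positivity)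
      have h2 : T / D - 1 = (T - D) / D := by
        field_simp
      rw [h2] at h1
      refine h1.trans (div_le_div₀ (by positivity) e2 hR0 hDR)
    have e4 : R ^ σ * R ^ (1 - σ) = R := by rw [← Real.rpow_add hR0, add_sub_cancel, Real.rpow_one]
    have hlogR : 0 < Real.log R := Real.log_pos (by linarith)
    have e5 : Real.log T ≤ 2 * Real.log R := by
      calc Real.log T ≤ Real.log (R ^ 2) := Real.log_le_log hTpos (by nlinarith)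
        _ = 2 * Real.log R := by
            rw [Real.log_pow]
            push_cast
            ring
    have hlogT : 0 < Real.log T := Real.log_pos (by linarith)
    rw [abs_of_nonneg (sub_nonneg.2 (Real.log_le_log hD0 hDT))]
    refine e3.trans ?_
    rw [div_le_div_iff₀ hR0 (by positivity), one_mul]
    have e6 : Real.log T ^ 2 ≤ (2 * Real.log R) ^ 2 := pow_le_pow_left₀ hlogT.le e5 2
    calc 3 * R ^ (1 - σ) * Real.log T ^ 2 ≤ 3 * R ^ (1 - σ) * (2 * Real.log R) ^ 2 :=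
          mul_le_mul_of_nonneg_left e6 (by positivity)
      _ = 12 * Real.log R ^ 2 * R ^ (1 - σ) := by ring
      _ ≤ R ^ σ * R ^ (1 - σ) := mul_le_mul_of_nonneg_right g6 (by positivity)
      _ = R := e4
  refine hstep' g1 T D hRT hDR hlogd (Real.log_le_log hD0 hDT) a t (t + j * R ^ y) b (R ^ y) (by linarith) k4 (by linarith)
    k7 (by linarith) (Real.one_le_rpow (by linarith) hy0.le) (by linarith) k8 ?_ hgood
  have p1 : R ^ η = R ^ σ * R ^ y := by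
    rw [hy, ← Real.rpow_add hR0]
    congr 1
    ring
  have p3 : R ^ η ≤ T ^ η := Real.rpow_le_rpow hR0.le hRT hη0.le
  have p4 : B * Real.log R * R ^ y ≤ R ^ σ * R ^ y := mul_le_mul_of_nonneg_right g7 (by positivity)
  linarith

/-- **Theorem.** Assume the Riemann hypothesis. Let `0 < η < 1`, `0 < μ < (1 + η) / 2` and `r` a test function of
bandwidth `μ`. (1) For every `ε > 0` there are `s < 1` and `κ > 0` such that for all `ν` with `ν n / log n → ∞` and all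
countable sets `U` there is a set `E` of Hausdorff dimension at most `s` such that for `x > 1` outside `E`, `u > 0` in `U` and
all large `n`, with `T = u x ^ (ν n)`, for EVERY interval `(a, b]` of length at least `T ^ η` in
`[T - T ^ (η + κ), T + T ^ (η + κ)]` the normalised sum of `r((γ - γ') log T / 2π)` over all pairs of ordinates in `(a, b]`
differs from the predicted value by at most `ε`. (2) For almost every `x > 1`, all `u > 0` in `U` and all `A` the normalised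
sums over the intervals of length at least `T ^ η` in `[T - T ^ η (log T) ^ A, T + T ^ η (log T) ^ A]` tend to the predicted
value, uniformly in the interval. -/
theorem result (hRH : RiemannHypothesis) :
    ∀ η μ : ℝ, 0 < η → η < 1 → 0 < μ → μ < (1 + η) / 2 → ∀ r : ℝ → ℝ, Test μ r →
    (∀ ε : ℝ, 0 < ε → ∃ s κ : ℝ, s < 1 ∧ 0 < κ ∧ ∀ ν : ℕ → ℝ, Fast ν → ∀ U : Set ℝ, U.Countable →
      ∃ E : Set ℝ, dimH E ≤ ENNReal.ofReal s ∧
        ∀ x : ℝ, 1 < x → x ∉ E → ∀ u ∈ U, 0 < u → ∃ n₀ : ℕ, ∀ n : ℕ, n₀ ≤ n → ∀ T : ℝ, T = u * x ^ ν n →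
          Every η (T ^ (η + κ)) T (fun a b => |P r a (b - a) T - M r| ≤ ε)) ∧
    (∀ ν : ℕ → ℝ, Fast ν → ∀ U : Set ℝ, U.Countable →
      ∀ᵐ x : ℝ, 1 < x → ∀ u ∈ U, 0 < u → ∀ A ε : ℝ, 0 < ε → ∃ n₀ : ℕ, ∀ n : ℕ, n₀ ≤ n → ∀ T : ℝ, T = u * x ^ ν n →
        Every η (T ^ η * Real.log T ^ A) T (fun a b => |P r a (b - a) T - M r| ≤ ε)) := by
  intro η μ hη0 hη1 hμ0 hμ r hr
  have hmain : ∀ ε : ℝ, 0 < ε → ∃ s κ : ℝ, s < 1 ∧ 0 < κ ∧ ∀ ν : ℕ → ℝ, Fast ν → ∀ U : Set ℝ, U.Countable →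
      ∃ E : Set ℝ, dimH E ≤ ENNReal.ofReal s ∧
        ∀ x : ℝ, 1 < x → x ∉ E → ∀ u ∈ U, 0 < u → ∃ n₀ : ℕ, ∀ n : ℕ, n₀ ≤ n → ∀ T : ℝ, T = u * x ^ ν n →
          Every η (T ^ (η + κ)) T (fun a b => |P r a (b - a) T - M r| ≤ ε) := by
    intro ε hε
    obtain ⟨s, κ, hs, hκ, h⟩ := one_amplitude hRH hη0 hη1 hμ0 hμ hε hr
    refine ⟨s, κ, hs, hκ, fun ν hν U hU => ?_⟩
    have hc : Countable U := hU.to_subtype
    have hall : ∀ q : {β : U // 0 < (β : ℝ)}, _ := fun q => h ν hν ((q.1 : U) : ℝ) q.2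
    choose E hE1 hE2 using hall
    refine ⟨⋃ q, E q, ?_, fun x hx hxE u hu hu0 => ?_⟩
    · rw [dimH_iUnion]
      exact iSup_le hE1
    · exact hE2 ⟨⟨u, hu⟩, hu0⟩ x hx (fun g => hxE (Set.mem_iUnion.2 ⟨_, g⟩))
  refine ⟨hmain, fun ν hν U hU => ?_⟩
  have hnull : ∀ k : ℕ, ∀ᵐ x : ℝ, 1 < x → ∀ u ∈ U, 0 < u → ∀ A : ℝ, ∃ n₀ : ℕ, ∀ n : ℕ, n₀ ≤ n → ∀ T : ℝ,
      T = u * x ^ ν n →
        Every η (T ^ η * Real.log T ^ A) T (fun a b => |P r a (b - a) T - M r| ≤ 1 / ((k : ℝ) + 1)) := by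
    intro k
    obtain ⟨s, κ, hs, hκ, hE⟩ := hmain (1 / ((k : ℝ) + 1)) (by positivity)
    obtain ⟨E, hE1, hE2⟩ := hE ν hν U hU
    have hE0 : volume E = 0 := by
      rw [← hausdorffMeasure_real]
      refine hausdorffMeasure_of_dimH_lt (d := 1) ?_
      refine lt_of_le_of_lt hE1 ?_
      rw [ENNReal.coe_one, ← ENNReal.ofReal_one]
      exact (ENNReal.ofReal_lt_ofReal_iff one_pos).2 hs
    filter_upwards [measure_eq_zero_iff_ae_notMem.1 hE0] with x hxE hx u hu hu0 A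
    obtain ⟨n₀, hn₀⟩ := hE2 x hx hxE u hu hu0
    obtain ⟨T₁, hT₁⟩ : ∃ T₁ : ℝ, ∀ T : ℝ, T₁ ≤ T → 1 ≤ T ∧ Real.log T ^ A ≤ T ^ κ := by
      have h1 := (isLittleO_log_rpow_rpow_atTop A hκ).bound (show (0 : ℝ) < 1 by norm_num)
      obtain ⟨T₁, h2⟩ := (h1.and (eventually_ge_atTop 1)).exists_forall_of_atTop
      refine ⟨T₁, fun T hT => ?_⟩
      obtain ⟨h3, h4⟩ := h2 T hT
      rw [Real.norm_of_nonneg (Real.rpow_nonneg (Real.log_nonneg h4) _), Real.norm_of_nonneg (by positivity), one_mul] at h3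
      exact ⟨h4, h3⟩
    obtain ⟨n₁, hn₁⟩ := large_of_near (θ := 0) hν hu0 one_pos hx T₁
    refine ⟨max n₀ n₁, fun n hn T hT a b ha hb hab => ?_⟩
    have hTlarge : T₁ ≤ T := by
      refine hn₁ n ((le_max_right _ _).trans hn) T ?_
      rw [hT, sub_self, abs_zero]
      positivity
    obtain ⟨g1, g2⟩ := hT₁ T hTlarge
    have hT0 : 0 < T := by linarith
    have e : T ^ η * Real.log T ^ A ≤ T ^ (η + κ) := by
      rw [Real.rpow_add hT0]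
      exact mul_le_mul_of_nonneg_left g2 (by positivity)
    exact hn₀ n ((le_max_left _ _).trans hn) T hT a b (by linarith) (by linarith) hab
  rw [← ae_all_iff] at hnull
  filter_upwards [hnull] with x hx hx1 u hu hu0 A ε hε
  obtain ⟨k, hk⟩ := exists_nat_one_div_lt hε
  obtain ⟨n₀, hn₀⟩ := hx k hx1 u hu hu0 A
  exact ⟨n₀, fun n hn T hT a b ha hb hab => (hn₀ n hn T hT a b ha hb hab).trans hk.le⟩

end Pool.Agent.Results.MP_103a5c_nt.PairsNearPowers
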