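import Mathlib
import Pool.Agent.V11270.KC.Main
import Pool.Agent.V1161.VC.L2

set_option autoImplicit false

/-!
# The lower bound of the pair correlation conjecture at polynomial distances, unconditionally

No hypothesis is assumed.  For every degree `d`, `κ > 0` and `ε > 0` there is an integer `M` such that every real
polynomial `b(x) = b_1 x + … + b_d x^d`, even with coefficients up to `θ T log T`, has one of its values
`b(1), …, b(M)` at which Montgomery's function `N(T; b(m) - κ, b(m) + κ)` is at least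
`(1 - ε) κ (T / 2π) log T`.  The same for the recurrence of arbitrary configurations of `k` windows of `κ` mean
spacings.

Proof.  Moments of all orders of the number of zeros in windows of the length of the mean spacing
(`Pool.Agent.Y750.OM.cntmom` of the starting library), and a finitely supported probability measure on the positive
integers, depending only on `d` and `ε`, whose polynomial Fourier transform is nowhere less than `-ε`
(`V1161.VC`); positive definiteness then gives the correlations.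
-/

open Filter Topology MeasureTheory

namespace Pool.Agent.Results.MP_103a5c_nt.PolynomialDistances

/-- multiplicity of `s` as a zero of the Riemann zeta function (order of vanishing at `s`) -/
noncomputable def zmult (s : ℂ) : ℕ := analyticOrderNatAt riemannZeta s

/-- the nontrivial zeros of zeta with ordinate in `(0, T]`, on or off the critical line -/
def zeros (T : ℝ) : Set ℂ :=
  {s : ℂ | riemannZeta s = 0 ∧ 0 < s.re ∧ s.re < 1 ∧ 0 < s.im ∧ s.im ≤ T}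

/-- the number (with multiplicity) of the zeros in `zeros T` with ordinate in the open interval with
centre `x` and length `κ * (2 π / log T)`, that is `κ` mean spacings -/
noncomputable def count (T κ x : ℝ) : ℝ :=
  ∑ᶠ s ∈ {s : ℂ | s ∈ zeros T ∧ |s.im - x| < κ * (Real.pi / Real.log T)}, (zmult s : ℝ)

/-- the product of the counts in `k` windows with centres `x + a_1, …, x + a_k` -/
noncomputable def conf {k : ℕ} (T κ : ℝ) (a : Fin k → ℝ) (x : ℝ) : ℝ := ∏ l, count T κ (x + a l)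

/-- the value at `m` of the real polynomial without constant term with coefficients `β` -/
noncomputable def poly {d : ℕ} (β : Fin d → ℝ) (m : ℕ) : ℝ := ∑ r, β r * (m : ℝ) ^ ((r : ℕ) + 1)

/-- Montgomery's `N(T; α, β)`: the number (with multiplicity) of the pairs of zeros with ordinates
`γ, γ'` in `(0, T]` such that `2 π α / log T ≤ γ - γ' ≤ 2 π β / log T` -/
noncomputable def pairs (T α β : ℝ) : ℝ :=
  ∑ᶠ p ∈ {p : ℂ × ℂ | p.1 ∈ zeros T ∧ p.2 ∈ zeros T ∧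
    2 * Real.pi * α / Real.log T ≤ p.1.im - p.2.im ∧
    p.1.im - p.2.im ≤ 2 * Real.pi * β / Real.log T}, (zmult p.1 : ℝ) * (zmult p.2 : ℝ)

open V11270.KC

lemma mem_zeros {T : ℝ} {s : ℂ} : s ∈ zeros T ↔ s ∈ Z0 T := by
  rw [mem_Z0]
  unfold zeros
  rw [Set.mem_ofPred_eq]
  tauto

lemma count_eq (T κ x : ℝ) : count T κ x = V (Z0 T) (Real.pi * κ / Real.log T) x := by
  classical
  unfold count V
  have h : {s : ℂ | s ∈ zeros T ∧ |s.im - x| < κ * (Real.pi / Real.log T)} =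
      (((Z0 T).filter (fun s => |s.im - x| < Real.pi * κ / Real.log T) : Finset ℂ) : Set ℂ) := by
    ext s
    rw [Finset.coe_filter, Set.mem_ofPred_eq, Set.mem_ofPred_eq, mem_zeros]
    have e : κ * (Real.pi / Real.log T) = Real.pi * κ / Real.log T := by ring
    rw [e]
  rw [h, finsum_mem_coe_finset]
  rfl

lemma pairs_eq (T α β : ℝ) : pairs T α β = ∑ p ∈ (Z0 T ×ˢ Z0 T).filter (fun p =>
    2 * Real.pi * α / Real.log T ≤ p.1.im - p.2.im ∧
    p.1.im - p.2.im ≤ 2 * Real.pi * β / Real.log T), (zmult p.1 : ℝ) * (zmult p.2 : ℝ) := by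
  classical
  unfold pairs
  have h : {p : ℂ × ℂ | p.1 ∈ zeros T ∧ p.2 ∈ zeros T ∧
      2 * Real.pi * α / Real.log T ≤ p.1.im - p.2.im ∧
      p.1.im - p.2.im ≤ 2 * Real.pi * β / Real.log T} =
      (((Z0 T ×ˢ Z0 T).filter (fun p => 2 * Real.pi * α / Real.log T ≤ p.1.im - p.2.im ∧
        p.1.im - p.2.im ≤ 2 * Real.pi * β / Real.log T) : Finset (ℂ × ℂ)) : Set (ℂ × ℂ)) := by
    ext p
    rw [Finset.coe_filter, Set.mem_ofPred_eq, Set.mem_ofPred_eq, Finset.mem_product, mem_zeros,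
      mem_zeros, and_assoc]
  rw [h, finsum_mem_coe_finset]

/-- the counts vanish far from the zeros -/
lemma V_supp (T : ℝ) {ρ : ℝ} (x : ℝ) (hx : x ∉ Set.Icc (-ρ) (-ρ + (T + 2 * ρ))) :
    V (Z0 T) ρ x = 0 := by
  unfold V
  refine Finset.sum_eq_zero fun s hs => ?_
  rw [Finset.mem_filter, mem_Z0] at hs
  exfalso
  apply hx
  obtain ⟨⟨g1, g2, g3, g4, g5⟩, g6⟩ := hs
  rw [abs_lt] at g6
  constructor <;> linarith

/-- recurrence of configurations -/
lemma conf_part (d k : ℕ) (hk : 1 ≤ k) (κ : ℝ) (hκ : 0 < κ) (ε : ℝ) (hε : 0 < ε) :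
    ∃ (M : ℕ) (θ T0 : ℝ), 1 ≤ M ∧ 0 < θ ∧ 10 ≤ T0 ∧ ∀ T : ℝ, T0 ≤ T →
      ∀ (a : Fin k → ℝ) (β : Fin d → ℝ), (∀ r, |β r| ≤ θ * T) → ∃ m : ℕ, 1 ≤ m ∧ m ≤ M ∧
        (1 / T * ∫ x, ∏ l, V (Z0 T) (Real.pi * κ / Real.log T) (x + a l)) ^ 2 - ε ≤
          1 / T * ∫ x, (∏ l, V (Z0 T) (Real.pi * κ / Real.log T) (x + a l)) *
            ∏ l, V (Z0 T) (Real.pi * κ / Real.log T) (x + poly β m + a l) := by
  classical
  obtain ⟨B, T1, hB, hT1, hmom⟩ := mom_kap (2 * k) (by omega) (Real.pi * κ) (by positivity)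
  have hk0 : (0 : ℝ) < k := by
    have : 0 < k := hk
    exact_mod_cast this
  obtain ⟨e, he⟩ : ∃ e : ℝ, e = min 1 (ε / (4 * (k * B))) := ⟨_, rfl⟩
  have he0 : 0 < e := by rw [he]; positivity
  have he1 : e ≤ 1 := by rw [he]; exact min_le_left _ _
  have heB : e * (k * B) ≤ ε / 4 := by
    have h1 : e ≤ ε / (4 * (k * B)) := by rw [he]; exact min_le_right _ _
    have h2 := mul_le_mul_of_nonneg_right h1 (show 0 ≤ k * B by positivity)
    refine h2.trans (le_of_eq ?_)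
    field_simp
  obtain ⟨M, c, hM, hc, hrec⟩ := V1161.VC.real_poly_L2 d he0 he1
  have h1 : ∀ᶠ T : ℝ in atTop, 2 * Real.pi * κ ≤ Real.log T :=
    Real.tendsto_log_atTop.eventually_ge_atTop _
  obtain ⟨T3, hT3⟩ := eventually_atTop.1 h1
  refine ⟨M, c, max T1 (max T3 (2 * (k * B) / ε)), hM, hc, hT1.trans (le_max_left _ _),
    fun T hT a β hβ => ?_⟩
  have hTT1 : T1 ≤ T := (le_max_left _ _).trans hT
  have hTT3 : T3 ≤ T := ((le_max_left _ _).trans (le_max_right _ _)).trans hT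
  have hTT4 : 2 * (k * B) / ε ≤ T := ((le_max_right _ _).trans (le_max_right _ _)).trans hT
  have hTp : 0 < T := by linarith
  have hlog := hT3 T hTT3
  have hL0 : 0 < Real.log T := lt_of_lt_of_le (by positivity) hlog
  obtain ⟨ρ, hρ⟩ : ∃ ρ : ℝ, ρ = Real.pi * κ / Real.log T := ⟨_, rfl⟩
  have hρ0 : 0 < ρ := by rw [hρ]; positivity
  have hρ1 : 2 * ρ ≤ 1 := by
    rw [hρ]
    have : 2 * (Real.pi * κ / Real.log T) = 2 * Real.pi * κ / Real.log T := by ring
    rw [this, div_le_one hL0]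
    exact hlog
  have hmT := hmom T hTT1
  rw [← hρ] at hmT
  rw [← hρ]
  have hne : (Finset.univ : Finset (Fin k)).Nonempty := ⟨⟨0, by omega⟩, Finset.mem_univ _⟩
  obtain ⟨P, hP⟩ : ∃ P : ℝ → ℝ, P = fun x => ∏ l, V (Z0 T) ρ (x + a l) := ⟨_, rfl⟩
  have hPN : Nice P := by
    rw [hP]
    exact Nice.prod Finset.univ hne (fun l x => V (Z0 T) ρ (x + a l)) fun l _ =>
      (nice_V _ _).comp _
  have hP0 : ∀ x, 0 ≤ P x := fun x => by
    rw [hP]
    exact Finset.prod_nonneg fun l _ => V_nonneg _ _ _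
  obtain ⟨l0, -⟩ := hne
  have hPs : ∀ x, x ∉ Set.Icc (-ρ - a l0) (-ρ - a l0 + (T + 2 * ρ)) → P x = 0 := by
    intro x hx
    rw [hP]
    refine Finset.prod_eq_zero (Finset.mem_univ l0) (V_supp T _ ?_)
    intro h2
    apply hx
    constructor
    · linarith [h2.1]
    · linarith [h2.2]
  have hL : 0 < T + 2 * ρ := by positivity
  -- the second moment
  have hP2 : ∫ x, P x ^ 2 ≤ k * B * T := by
    have hpt : ∀ x, P x ^ 2 ≤ ∑ l, V (Z0 T) ρ (x + a l) ^ (2 * k) := by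
      intro x
      have h2 := prod_le_sum_pow hk (fun l => V (Z0 T) ρ (x + a l) ^ 2) fun l => sq_nonneg _
      rw [hP]
      simp only
      rw [← Finset.prod_pow]
      refine h2.trans (le_of_eq ?_)
      refine Finset.sum_congr rfl fun l _ => ?_
      rw [← pow_mul]
    have hN : ∀ l, Integrable fun x => V (Z0 T) ρ (x + a l) ^ (2 * k) := fun l =>
      (((nice_V _ _).comp (a l)).pow (by omega)).integrable
    refine (integral_mono (hPN.pow (by norm_num)).integrable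
      (integrable_finsetSum Finset.univ fun l _ => hN l) hpt).trans ?_
    rw [integral_finsetSum _ fun l _ => hN l]
    have h8 : ∀ l, ∫ x, V (Z0 T) ρ (x + a l) ^ (2 * k) = ∫ x, V (Z0 T) ρ x ^ (2 * k) := fun l =>
      integral_add_right_eq_self (fun t => V (Z0 T) ρ t ^ (2 * k)) (a l)
    simp_rw [h8]
    rw [Finset.sum_const, Finset.card_univ, Fintype.card_fin, nsmul_eq_mul, mul_assoc]
    exact mul_le_mul_of_nonneg_left hmT hk0.le
  have hP20 : 0 ≤ ∫ x, P x ^ 2 := integral_nonneg fun x => sq_nonneg _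
  have hPB : ∃ B', ∀ x, P x ≤ B' := by
    obtain ⟨B', hB'⟩ := hPN.bdd
    exact ⟨B', fun x => (le_abs_self _).trans (hB' x)⟩
  obtain ⟨m, hm1, hm2, hm⟩ := hrec (-ρ - a l0) (T + 2 * ρ) hL P hPN.meas hP0 hPB hPs β
    (fun r => (hβ r).trans (mul_le_mul_of_nonneg_left (by linarith) hc.le))
  refine ⟨m, hm1, hm2, ?_⟩
  have hcs := jensen (k := 2) (by norm_num) hPN hP0 hL hPs
  rw [show (2 - 1 : ℕ) = 1 from rfl, pow_one] at hcs
  obtain ⟨I, hI⟩ : ∃ I : ℝ, I = ∫ x, P x := ⟨_, rfl⟩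
  obtain ⟨J, hJ⟩ : ∃ J : ℝ, J = ∫ x, P x ^ 2 := ⟨_, rfl⟩
  obtain ⟨Q, hQ⟩ : ∃ Q : ℝ, Q = ∫ x, P x * P (x + poly β m) := ⟨_, rfl⟩
  have hm' : (1 - e) * (I ^ 2 / (T + 2 * ρ)) - e * J ≤ Q := by
    rw [hI, hJ, hQ]
    exact hm
  rw [← hI, ← hJ] at hcs
  rw [← hJ] at hP2 hP20
  have hgoal : (1 / T * I) ^ 2 - ε ≤ 1 / T * Q := by
    have e1 : (1 / T * I) ^ 2 = 1 / T * (I ^ 2 / (T + 2 * ρ)) +
        1 / T * ((I ^ 2 / (T + 2 * ρ)) * (2 * ρ / T)) := by
      field_simp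
    have hTi : 0 ≤ 1 / T := by positivity
    have hJT : 1 / T * J ≤ k * B := by
      rw [one_div, inv_mul_eq_div, div_le_iff₀ hTp]
      exact hP2
    have h3 : 1 / T * ((I ^ 2 / (T + 2 * ρ)) * (2 * ρ / T)) ≤ ε / 2 := by
      have h4 : 2 * ρ / T ≤ 1 / T := div_le_div_of_nonneg_right hρ1 hTp.le
      have h5 : 1 / T * (k * B) ≤ ε / 2 := by
        rw [div_le_iff₀ hε] at hTT4
        rw [one_div, inv_mul_eq_div, div_le_iff₀ hTp]
        linarith
      calc 1 / T * ((I ^ 2 / (T + 2 * ρ)) * (2 * ρ / T)) ≤ 1 / T * (J * (1 / T)) := by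
            apply mul_le_mul_of_nonneg_left _ hTi
            exact mul_le_mul hcs h4 (by positivity) hP20
        _ = 1 / T * (1 / T * J) := by ring
        _ ≤ 1 / T * (k * B) := mul_le_mul_of_nonneg_left hJT hTi
        _ ≤ ε / 2 := h5
    have h6 := mul_le_mul_of_nonneg_left hm' hTi
    have h7 : 1 / T * ((1 - e) * (I ^ 2 / (T + 2 * ρ)) - e * J) =
        1 / T * (I ^ 2 / (T + 2 * ρ)) - e * (1 / T * (I ^ 2 / (T + 2 * ρ))) - e * (1 / T * J) := by
      ring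
    rw [h7] at h6
    have h8 : 1 / T * (I ^ 2 / (T + 2 * ρ)) ≤ 1 / T * J := mul_le_mul_of_nonneg_left hcs hTi
    have h9 : e * (1 / T * J) ≤ ε / 4 := (mul_le_mul_of_nonneg_left hJT he0.le).trans heB
    have h10 : e * (1 / T * (I ^ 2 / (T + 2 * ρ))) ≤ ε / 4 :=
      (mul_le_mul_of_nonneg_left h8 he0.le).trans h9
    rw [e1]
    linarith
  rw [hI, hQ, hP] at hgoal
  exact hgoal

/-- recurrence of the powers of the counts -/
lemma pow_part (d k : ℕ) (hk : 1 ≤ k) (κ : ℝ) (hκ : 0 < κ) (ε : ℝ) (hε : 0 < ε) (hε1 : ε < 1) :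
    ∃ (M : ℕ) (θ T0 : ℝ), 1 ≤ M ∧ 0 < θ ∧ 10 ≤ T0 ∧ ∀ T : ℝ, T0 ≤ T →
      ∀ (β : Fin d → ℝ), (∀ r, |β r| ≤ θ * T) → ∃ m : ℕ, 1 ≤ m ∧ m ≤ M ∧
        (1 - ε) * κ ^ (2 * k) ≤
          1 / T * ∫ x, V (Z0 T) (Real.pi * κ / Real.log T) x ^ k *
            V (Z0 T) (Real.pi * κ / Real.log T) (x + poly β m) ^ k := by
  classical
  have hk0 : (0 : ℝ) < k := by
    have : 0 < k := hk
    exact_mod_cast this
  obtain ⟨M, θ, T1, hM, hθ, hT1, h⟩ := conf_part d k hk κ hκ (ε / 2 * κ ^ (2 * k)) (by positivity)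
  obtain ⟨η, hη⟩ : ∃ η : ℝ, η = ε / (8 * k) := ⟨_, rfl⟩
  have hη0 : 0 < η := by rw [hη]; positivity
  have hη1 : η ≤ 1 / 8 := by
    rw [hη, div_le_div_iff₀ (by positivity) (by norm_num)]
    have : (1 : ℝ) ≤ k := by exact_mod_cast hk
    nlinarith
  obtain ⟨T2, hT2, hcount⟩ := count_all η hη0
  have h1 : ∀ᶠ T : ℝ in atTop, 2 * Real.pi * κ ≤ Real.log T :=
    Real.tendsto_log_atTop.eventually_ge_atTop _
  obtain ⟨T3, hT3⟩ := eventually_atTop.1 h1
  refine ⟨M, θ, max T1 (max T2 (max T3 (1 / η))), hM, hθ, hT1.trans (le_max_left _ _),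
    fun T hT β hβ => ?_⟩
  have hTT1 : T1 ≤ T := (le_max_left _ _).trans hT
  have hTT2 : T2 ≤ T := ((le_max_left _ _).trans (le_max_right _ _)).trans hT
  have hTT3 : T3 ≤ T :=
    (((le_max_left _ _).trans (le_max_right _ _)).trans (le_max_right _ _)).trans hT
  have hTT4 : 1 / η ≤ T :=
    (((le_max_right _ _).trans (le_max_right _ _)).trans (le_max_right _ _)).trans hT
  have hTp : 0 < T := by linarith
  have hlog := hT3 T hTT3
  have hL0 : 0 < Real.log T := lt_of_lt_of_le (by positivity) hlog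
  obtain ⟨m, hm1, hm2, hm⟩ := h T hTT1 (fun _ => 0) β hβ
  refine ⟨m, hm1, hm2, ?_⟩
  obtain ⟨ρ, hρ⟩ : ∃ ρ : ℝ, ρ = Real.pi * κ / Real.log T := ⟨_, rfl⟩
  have hρ0 : 0 < ρ := by rw [hρ]; positivity
  have hρ1 : 2 * ρ ≤ 1 := by
    rw [hρ]
    have : 2 * (Real.pi * κ / Real.log T) = 2 * Real.pi * κ / Real.log T := by ring
    rw [this, div_le_one hL0]
    exact hlog
  rw [← hρ] at hm ⊢
  simp only [add_zero, Finset.prod_const, Finset.card_univ, Fintype.card_fin] at hm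
  -- the main term
  have hI : (1 - η) * κ * T ≤ ∫ x, V (Z0 T) ρ x := by
    rw [int_V _ hρ0.le]
    have h2 := hcount T hTT2
    have h3 := mul_le_mul_of_nonneg_left h2 (show 0 ≤ 2 * ρ by positivity)
    refine le_trans (le_of_eq ?_) h3
    rw [hρ]
    field_simp
  have hLL : T + 2 * ρ ≤ (1 + η) * T := by
    have : 1 ≤ η * T := by
      rw [div_le_iff₀ hη0] at hTT4
      linarith
    linarith
  have hj := jensen hk (nice_V (Z0 T) ρ) (V_nonneg _ _) (show 0 < T + 2 * ρ by positivity)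
    (V_supp T (ρ := ρ))
  have hpow : (1 - ε / 4) * κ ^ k ≤ 1 / T * ∫ x, V (Z0 T) ρ x ^ k := by
    have h2 : ((1 - η) * κ * T) ^ k ≤ (∫ x, V (Z0 T) ρ x) ^ k := by
      refine pow_le_pow_left₀ ?_ hI k
      have : 0 ≤ 1 - η := by linarith
      positivity
    have h3 : (T + 2 * ρ) ^ (k - 1) ≤ ((1 + η) * T) ^ (k - 1) :=
      pow_le_pow_left₀ (by positivity) hLL _
    have h4 : ((1 - η) * κ * T) ^ k / ((1 + η) * T) ^ (k - 1) ≤ ∫ x, V (Z0 T) ρ x ^ k := by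
      refine le_trans ?_ hj
      exact div_le_div₀ (by
        have : 0 ≤ ∫ x, V (Z0 T) ρ x := integral_nonneg fun x => V_nonneg _ _ _
        positivity) h2 (by positivity) h3
    have h5 : (1 - ε / 4) * κ ^ k * T ≤ ((1 - η) * κ * T) ^ k / ((1 + η) * T) ^ (k - 1) := by
      rw [le_div_iff₀ (by positivity)]
      have h6 : (1 - ε / 4) * (1 + η) ^ (k - 1) ≤ (1 - η) ^ k := by
        have h7 : 1 + ((2 * k : ℕ) : ℝ) * (-η) ≤ (1 + (-η)) ^ (2 * k) :=
          one_add_mul_le_pow (by linarith) _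
        have h8 : 1 + ((2 * k : ℕ) : ℝ) * (-η) = 1 - ε / 4 := by
          rw [hη]
          push_cast
          field_simp
          ring
        have h9 : (1 + (-η)) ^ (2 * k) = (1 - η) ^ k * (1 - η) ^ k := by
          rw [← sub_eq_add_neg, two_mul, pow_add]
        rw [h8, h9] at h7
        have h10 : (1 - η) ^ k * (1 + η) ^ (k - 1) ≤ 1 := by
          have h11 : (1 + η) ^ (k - 1) ≤ (1 + η) ^ k :=
            pow_le_pow_right₀ (by linarith) (by omega)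
          have h12 : (1 - η) ^ k * (1 + η) ^ k ≤ 1 := by
            rw [← mul_pow]
            apply pow_le_one₀
            · nlinarith
            · nlinarith
          have h13 : 0 ≤ (1 - η) ^ k := pow_nonneg (by linarith) _
          exact (mul_le_mul_of_nonneg_left h11 h13).trans h12
        calc (1 - ε / 4) * (1 + η) ^ (k - 1) ≤ ((1 - η) ^ k * (1 - η) ^ k) * (1 + η) ^ (k - 1) :=
              mul_le_mul_of_nonneg_right h7 (by positivity)
          _ = (1 - η) ^ k * ((1 - η) ^ k * (1 + η) ^ (k - 1)) := by ring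
          _ ≤ (1 - η) ^ k * 1 :=
              mul_le_mul_of_nonneg_left h10 (pow_nonneg (by linarith) _)
          _ = _ := mul_one _
      have h14 := mul_le_mul_of_nonneg_right h6 (show 0 ≤ κ ^ k * T ^ k by positivity)
      refine le_trans (le_of_eq ?_) (h14.trans (le_of_eq ?_))
      · obtain ⟨j, rfl⟩ : ∃ j, k = j + 1 := ⟨k - 1, by omega⟩
        simp only [Nat.add_sub_cancel]
        rw [mul_pow (1 + η) T j, pow_succ T j]
        ring
      · rw [mul_pow, mul_pow]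
        ring
    rw [one_div, inv_mul_eq_div, le_div_iff₀ hTp]
    exact h5.trans h4
  have hsq : (1 - ε / 2) * κ ^ (2 * k) ≤ (1 / T * ∫ x, V (Z0 T) ρ x ^ k) ^ 2 := by
    have h2 : ((1 - ε / 4) * κ ^ k) ^ 2 ≤ (1 / T * ∫ x, V (Z0 T) ρ x ^ k) ^ 2 := by
      refine pow_le_pow_left₀ ?_ hpow 2
      have : 0 ≤ 1 - ε / 4 := by linarith
      positivity
    refine le_trans ?_ h2
    have h3 : ((1 - ε / 4) * κ ^ k) ^ 2 = (1 - ε / 4) ^ 2 * κ ^ (2 * k) := by
      rw [mul_pow, ← pow_mul, mul_comm k 2]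
    rw [h3]
    apply mul_le_mul_of_nonneg_right _ (by positivity)
    nlinarith [sq_nonneg ε]
  have e3 : (1 - ε) * κ ^ (2 * k) = (1 - ε / 2) * κ ^ (2 * k) - ε / 2 * κ ^ (2 * k) := by ring
  rw [e3]
  linarith

/-- the pairs -/
lemma pairs_part (d : ℕ) (κ : ℝ) (hκ : 0 < κ) (ε : ℝ) (hε : 0 < ε) (hε1 : ε < 1) :
    ∃ (M : ℕ) (θ T0 : ℝ), 1 ≤ M ∧ 0 < θ ∧ 10 ≤ T0 ∧ ∀ T : ℝ, T0 ≤ T →
      ∀ (b : Fin d → ℝ), (∀ r, |b r| ≤ θ * (T * Real.log T)) → ∃ m : ℕ, 1 ≤ m ∧ m ≤ M ∧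
        (1 - ε) * κ * (T / (2 * Real.pi) * Real.log T) ≤
          pairs T (poly b m - κ) (poly b m + κ) := by
  classical
  obtain ⟨M, θ, T0, hM, hθ, hT0, h⟩ := pow_part d 1 le_rfl κ hκ ε hε hε1
  have hpi := Real.pi_pos
  refine ⟨M, θ / (2 * Real.pi), T0, hM, by positivity, hT0, fun T hT b hb => ?_⟩
  have hTp : 0 < T := by linarith
  have hL0 : 0 < Real.log T := Real.log_pos (by linarith)
  obtain ⟨m, hm1, hm2, hm⟩ := h T hT (fun r => 2 * Real.pi * b r / Real.log T) (fun r => by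
    rw [abs_div, abs_mul, abs_of_pos hL0, abs_of_pos (show 0 < 2 * Real.pi by positivity),
      div_le_iff₀ hL0]
    have h4 := mul_le_mul_of_nonneg_left (hb r) (show 0 ≤ 2 * Real.pi by positivity)
    refine h4.trans (le_of_eq ?_)
    field_simp)
  refine ⟨m, hm1, hm2, ?_⟩
  have hpoly : poly (fun r => 2 * Real.pi * b r / Real.log T) m =
      2 * Real.pi * poly b m / Real.log T := by
    unfold poly
    rw [Finset.mul_sum, Finset.sum_div]
    exact Finset.sum_congr rfl fun r _ => by ring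
  rw [hpoly] at hm
  obtain ⟨ρ, hρ⟩ : ∃ ρ : ℝ, ρ = Real.pi * κ / Real.log T := ⟨_, rfl⟩
  have hρ0 : 0 < ρ := by rw [hρ]; positivity
  rw [← hρ] at hm
  simp only [pow_one, mul_one] at hm
  have h5 := pair_bound (Z0 T) hρ0 (2 * Real.pi * poly b m / Real.log T) 0
  have h6 : ∫ x, V (Z0 T) ρ x * V (Z0 T) ρ (x + 2 * Real.pi * poly b m / Real.log T) ≤
      2 * ρ * pairs T (poly b m - κ) (poly b m + κ) := by
    have e0 : ∫ x, V (Z0 T) ρ x * V (Z0 T) ρ (x + 2 * Real.pi * poly b m / Real.log T) =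
        ∫ x, V (Z0 T) ρ (x + 2 * Real.pi * poly b m / Real.log T) * V (Z0 T) ρ (x + 0) := by
      congr 1
      funext x
      rw [add_zero, mul_comm]
    rw [e0]
    refine h5.trans (le_of_eq ?_)
    rw [pairs_eq]
    congr 1
    refine Finset.sum_congr ?_ fun p _ => rfl
    refine Finset.filter_congr fun p _ => ?_
    have e1 : 2 * Real.pi * (poly b m - κ) / Real.log T =
        2 * Real.pi * poly b m / Real.log T - 2 * ρ := by
      rw [hρ]
      ring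
    have e2 : 2 * Real.pi * (poly b m + κ) / Real.log T =
        2 * Real.pi * poly b m / Real.log T + 2 * ρ := by
      rw [hρ]
      ring
    rw [e1, e2, abs_le]
    constructor
    · rintro ⟨g1, g2⟩
      constructor <;> linarith
    · rintro ⟨g1, g2⟩
      constructor <;> linarith
  have h7 : (1 - ε) * κ ^ 2 * T ≤ 2 * ρ * pairs T (poly b m - κ) (poly b m + κ) := by
    rw [one_div, inv_mul_eq_div, le_div_iff₀ hTp] at hm
    exact hm.trans h6
  have h8 := mul_le_mul_of_nonneg_right h7 (show 0 ≤ 1 / (2 * ρ) by positivity)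
  refine le_trans (le_of_eq ?_) (h8.trans (le_of_eq ?_))
  · rw [hρ]
    field_simp
  · field_simp

/-- fixed polynomials -/
lemma fixed_part (d : ℕ) (κ : ℝ) (hκ : 0 < κ) (ε : ℝ) (hε : 0 < ε) (hε1 : ε < 1) :
    ∃ M : ℕ, 1 ≤ M ∧ ∀ b : Fin d → ℝ, ∃ m : ℕ, 1 ≤ m ∧ m ≤ M ∧ ∃ᶠ T : ℝ in atTop,
      (1 - ε) * κ * (T / (2 * Real.pi) * Real.log T) ≤
        pairs T (poly b m - κ) (poly b m + κ) := by
  classical
  obtain ⟨M, θ, T0, hM, hθ, hT0, h⟩ := pairs_part d κ hκ ε hε hε1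
  refine ⟨M, hM, fun b => ?_⟩
  by_contra hcon
  push Not at hcon
  have h3 : ∀ᶠ T : ℝ in atTop, ∀ m ∈ Finset.Icc 1 M, ¬ ((1 - ε) * κ *
      (T / (2 * Real.pi) * Real.log T) ≤ pairs T (poly b m - κ) (poly b m + κ)) := by
    rw [Finset.eventually_all]
    intro m hm
    rw [Finset.mem_Icc] at hm
    have := hcon m hm.1 hm.2
    exact this.mono fun x hx => not_le.2 hx
  obtain ⟨A, hA⟩ : ∃ A : ℝ, ∀ r, |b r| ≤ A :=
    ⟨∑ r, |b r|, fun r => Finset.single_le_sum (f := fun r => |b r|) (fun _ _ => abs_nonneg _)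
      (Finset.mem_univ r)⟩
  have h4 : ∀ᶠ T : ℝ in atTop, A ≤ θ * (T * Real.log T) := by
    filter_upwards [eventually_ge_atTop (A / θ), eventually_ge_atTop (Real.exp 1),
      eventually_ge_atTop (1 : ℝ)] with T h5 h6 h7
    have hTp : 0 < T := by linarith
    have hl1 : 1 ≤ Real.log T := by
      rw [Real.le_log_iff_exp_le hTp]
      exact h6
    rw [div_le_iff₀ hθ] at h5
    have : T * θ * 1 ≤ T * θ * Real.log T := mul_le_mul_of_nonneg_left hl1 (by positivity)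
    linarith
  obtain ⟨T, ⟨h5, h6⟩, h7⟩ := ((h3.and h4).and (eventually_ge_atTop T0)).exists
  obtain ⟨m, hm1, hm2, hm⟩ := h T h7 b fun r => (hA r).trans h6
  exact h5 m (Finset.mem_Icc.2 ⟨hm1, hm2⟩) hm

/-- **The lower bound of the pair correlation conjecture at polynomial distances.** -/
theorem result :
    -- recurrence of configurations of windows
    (∀ (d k : ℕ), 1 ≤ k → ∀ κ ε : ℝ, 0 < κ → 0 < ε → ∃ (M : ℕ) (θ T₀ : ℝ), 1 ≤ M ∧ 0 < θ ∧
      ∀ T : ℝ, T₀ ≤ T → ∀ (a : Fin k → ℝ) (β : Fin d → ℝ), (∀ r, |β r| ≤ θ * T) →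
        ∃ m : ℕ, 1 ≤ m ∧ m ≤ M ∧
          (1 / T * ∫ x, conf T κ a x) ^ 2 - ε ≤
            1 / T * ∫ x, conf T κ a x * conf T κ a (x + poly β m)) ∧
    -- powers of the counts
    (∀ (d k : ℕ), 1 ≤ k → ∀ κ ε : ℝ, 0 < κ → 0 < ε → ε < 1 → ∃ (M : ℕ) (θ T₀ : ℝ), 1 ≤ M ∧ 0 < θ ∧
      ∀ T : ℝ, T₀ ≤ T → ∀ β : Fin d → ℝ, (∀ r, |β r| ≤ θ * T) → ∃ m : ℕ, 1 ≤ m ∧ m ≤ M ∧
        (1 - ε) * κ ^ (2 * k) ≤ 1 / T * ∫ x, count T κ x ^ k * count T κ (x + poly β m) ^ k) ∧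
    -- pairs of zeros
    (∀ (d : ℕ) (κ ε : ℝ), 0 < κ → 0 < ε → ε < 1 → ∃ (M : ℕ) (θ T₀ : ℝ), 1 ≤ M ∧ 0 < θ ∧
      ∀ T : ℝ, T₀ ≤ T → ∀ b : Fin d → ℝ, (∀ r, |b r| ≤ θ * (T * Real.log T)) →
        ∃ m : ℕ, 1 ≤ m ∧ m ≤ M ∧ (1 - ε) * κ * (T / (2 * Real.pi) * Real.log T) ≤
          pairs T (poly b m - κ) (poly b m + κ)) ∧
    -- fixed polynomials
    (∀ (d : ℕ) (κ ε : ℝ), 0 < κ → 0 < ε → ε < 1 → ∃ M : ℕ, 1 ≤ M ∧ ∀ b : Fin d → ℝ,
      ∃ m : ℕ, 1 ≤ m ∧ m ≤ M ∧ ∃ᶠ T : ℝ in atTop,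
        (1 - ε) * κ * (T / (2 * Real.pi) * Real.log T) ≤
          pairs T (poly b m - κ) (poly b m + κ)) := by
  refine ⟨fun d k hk κ ε hκ hε => ?_, fun d k hk κ ε hκ hε hε1 => ?_,
    fun d κ ε hκ hε hε1 => ?_, fun d κ ε hκ hε hε1 => fixed_part d κ hκ ε hε hε1⟩
  · obtain ⟨M, θ, T0, hM, hθ, -, h⟩ := conf_part d k hk κ hκ ε hε
    refine ⟨M, θ, T0, hM, hθ, fun T hT a β hβ => ?_⟩
    obtain ⟨m, hm1, hm2, hm⟩ := h T hT a β hβ
    refine ⟨m, hm1, hm2, ?_⟩
    unfold conf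
    simp_rw [count_eq]
    exact hm
  · obtain ⟨M, θ, T0, hM, hθ, -, h⟩ := pow_part d k hk κ hκ ε hε hε1
    refine ⟨M, θ, T0, hM, hθ, fun T hT β hβ => ?_⟩
    obtain ⟨m, hm1, hm2, hm⟩ := h T hT β hβ
    refine ⟨m, hm1, hm2, ?_⟩
    simp_rw [count_eq]
    exact hm
  · obtain ⟨M, θ, T0, hM, hθ, -, h⟩ := pairs_part d κ hκ ε hε hε1
    exact ⟨M, θ, T0, hM, hθ, h⟩

end Pool.Agent.Results.MP_103a5c_nt.PolynomialDistances
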